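import Mathlib

set_option autoImplicit false

namespace Pool.Agent.Lib.helper24.Succ

open Set Cardinal

/-- the well-order of type the successor cardinal of `c` -/
def W (c : Cardinal.{0}) : Type := (Order.succ c).ord.ToType

noncomputable instance (c : Cardinal.{0}) : LinearOrder (W c) :=
  inferInstanceAs (LinearOrder (Order.succ c).ord.ToType)

instance (c : Cardinal.{0}) : WellFoundedLT (W c) :=
  inferInstanceAs (WellFoundedLT (Order.succ c).ord.ToType)

lemma mk_W (c : Cardinal.{0}) : #(W c) = Order.succ c := mk_ord_toType _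

lemma card_Iio {c : Cardinal.{0}} (a : W c) : #(Iio a) ≤ c :=
  Order.lt_succ_iff.1 (mk_Iio_ord_toType (c := Order.succ c) a)

lemma card_Iic {c : Cardinal.{0}} (hc : ℵ₀ ≤ c) (a : W c) : #(Iic a) ≤ c := by
  rw [← Iio_insert]
  refine mk_insert_le.trans ?_
  exact add_le_of_le hc (card_Iio a) (one_le_aleph0.trans hc)

lemma bdd {c : Cardinal.{0}} (hc : ℵ₀ ≤ c) (s : Set (W c)) (hs : #s ≤ c) :
    ∃ b, ∀ a ∈ s, a < b := by
  by_contra h
  push Not at h
  have h1 : (univ : Set (W c)) ⊆ ⋃ a : s, Iic a.1 := fun b _ => by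
    obtain ⟨a, ha, hb⟩ := h b
    exact mem_iUnion.2 ⟨⟨a, ha⟩, hb⟩
  have h2 : #(univ : Set (W c)) ≤ c := by
    refine (mk_le_mk_of_subset h1).trans (mk_iUnion_le_sum_mk.trans ?_)
    refine (sum_le_sum _ (fun _ => c) fun a : s => card_Iic hc a.1).trans ?_
    rw [sum_const']
    exact mul_le_of_le hc hs le_rfl
  rw [mk_univ, mk_W] at h2
  exact absurd h2 (not_le.2 (Order.lt_succ c))

lemma bdd_range {c : Cardinal.{0}} (hc : ℵ₀ ≤ c) {J : Type} (hJ : #J ≤ c) (f : J → W c) :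
    ∃ b, ∀ j, f j < b := by
  obtain ⟨b, hb⟩ := bdd hc (range f) (mk_range_le.trans hJ)
  exact ⟨b, fun j => hb _ ⟨j, rfl⟩⟩

lemma bdd_countable {c : Cardinal.{0}} (hc : ℵ₀ ≤ c) (s : Set (W c)) (hs : s.Countable) :
    ∃ b, ∀ a ∈ s, a < b :=
  bdd hc s ((le_aleph0_iff_set_countable.2 hs).trans hc)

lemma exists_gt {c : Cardinal.{0}} (hc : ℵ₀ ≤ c) (a : W c) : ∃ b, a < b := by
  obtain ⟨b, hb⟩ := bdd_countable hc {a} (countable_singleton a)
  exact ⟨b, hb a rfl⟩

instance (c : Cardinal.{0}) : Nonempty (W c) := by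
  rw [← mk_ne_zero_iff, mk_W]
  exact (Order.bot_lt_succ c).ne'

/-- closure point: a bounded set `A`, lower, such that every countable subset lies below some
`b` all of whose `F b`-predecessors are in `A`. -/
lemma exists_closed {c : Cardinal.{0}} (hc : ℵ₀ < c) (F : W c → W c) :
    ∃ A : Set (W c), (∃ d, ∀ a ∈ A, a < d) ∧
      ∀ s : Set (W c), s.Countable → s ⊆ A → ∃ b, s ⊆ Iio b ∧ Iio (F b) ⊆ A := by
  have h1 : Order.succ ℵ₀ ≤ c := Order.succ_le_of_lt hc
  have hb : ∀ (x : W ℵ₀) (g : ∀ y, y < x → W c), ∃ b : W c, ∀ y (h : y < x),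
      g y h < b ∧ F (g y h) < b := by
    intro x g
    obtain ⟨b, hb⟩ := bdd_range hc.le (J := Iio x) ((card_Iio x).trans hc.le)
      (fun y => max (g y.1 y.2) (F (g y.1 y.2)))
    exact ⟨b, fun y h => max_lt_iff.1 (hb ⟨y, h⟩)⟩
  choose G hG using hb
  let β : W ℵ₀ → W c := (wellFounded_lt (α := W ℵ₀)).fix G
  have hβ : ∀ x y, y < x → β y < β x ∧ F (β y) < β x := by
    intro x y h
    have : β x = G x fun y _ => β y := (wellFounded_lt (α := W ℵ₀)).fix_eq G x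
    rw [this]
    exact hG x (fun y _ => β y) y h
  refine ⟨⋃ x, Iio (β x), ?_, ?_⟩
  · obtain ⟨d, hd⟩ := bdd_range hc.le (J := W ℵ₀) (by rw [mk_W]; exact h1) β
    refine ⟨d, fun a ha => ?_⟩
    obtain ⟨x, hx⟩ := mem_iUnion.1 ha
    exact lt_trans hx (hd x)
  · intro s hs hsA
    have : ∀ a : s, ∃ x, a.1 < β x := fun a => mem_iUnion.1 (hsA a.2)
    choose ξ hξ using this
    haveI := hs.to_subtype
    obtain ⟨x, hx⟩ := bdd_range le_rfl (J := s) mk_le_aleph0 ξ
    obtain ⟨x', hx'⟩ := exists_gt le_rfl x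
    refine ⟨β x, fun a ha => (hξ ⟨a, ha⟩).trans (hβ _ _ (hx _)).1, fun a ha => ?_⟩
    exact mem_iUnion.2 ⟨x', lt_trans ha (hβ _ _ hx').2⟩

end Pool.Agent.Lib.helper24.Succ
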