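import Mathlib

set_option autoImplicit false
open Set Function

namespace Pool.Agent.Lib.helper24.Det

universe u

/-- game trees: positions with a length and a parent -/
structure Tr where
  P : Type u
  len : P → ℕ
  par : P → P
  len_par : ∀ p, len (par p) = len p - 1
  pruned : ∀ p, ∃ q, len q = len p + 1 ∧ par q = p

def Tr.Ch (T : Tr.{u}) (q p : T.P) : Prop := T.len q = T.len p + 1 ∧ T.par q = p

abbrev Strat (T : Tr.{u}) : Type u := {σ : T.P → T.P // ∀ p, T.Ch (σ p) p}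

abbrev Br (T : Tr.{u}) : Type u :=
  {x : ℕ → T.P // (∀ n, T.len (x n) = n) ∧ ∀ n, T.par (x (n + 1)) = x n}

def Fol {T : Tr.{u}} (e : Bool) (σ : Strat T) (x : Br T) : Prop :=
  ∀ n : ℕ, n.bodd = e → x.1 (n + 1) = σ.1 (x.1 n)

def Ag {T : Tr.{u}} (n : ℕ) (σ σ' : Strat T) : Prop := ∀ p, T.len p < n → σ.1 p = σ'.1 p

lemma Br.ch {T : Tr.{u}} (x : Br T) (n : ℕ) : T.Ch (x.1 (n + 1)) (x.1 n) :=
  ⟨by rw [x.2.1, x.2.1], x.2.2 n⟩

instance (T : Tr.{u}) : Nonempty (Strat T) := by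
  choose f hf using T.pruned
  exact ⟨⟨f, hf⟩⟩

structure Cov (k : ℕ) (T' T : Tr.{u}) where
  π : T'.P → T.P
  len_π : ∀ p, T.len (π p) = T'.len p
  par_π : ∀ p, π (T'.par p) = T.par (π p)
  φ : Bool → Strat T' → Strat T
  loc : ∀ e σ σ' n, Ag n σ σ' → Ag n (φ e σ) (φ e σ')
  lift : ∀ e σ x, Fol e (φ e σ) x → ∃ x' : Br T', Fol e σ x' ∧ ∀ n, π (x'.1 n) = x.1 n
  inj : ∀ p q, T'.len p ≤ k → π p = π q → p = q
  surj : ∀ p, T.len p ≤ k → ∃ q, π q = p
  fix : ∀ e σ p, T'.len p < k → (φ e σ).1 (π p) = π (σ.1 p)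

def Cov.br {k : ℕ} {T' T : Tr.{u}} (c : Cov k T' T) (x : Br T') : Br T :=
  ⟨fun n => c.π (x.1 n), fun n => by rw [c.len_π, x.2.1], fun n => by rw [← c.par_π, x.2.2]⟩

def Cov.refl (k : ℕ) (T : Tr.{u}) : Cov k T T where
  π := id
  len_π _ := rfl
  par_π _ := rfl
  φ _ σ := σ
  loc _ _ _ _ h := h
  lift _ _ x h := ⟨x, h, fun _ => rfl⟩
  inj _ _ _ h := h
  surj p _ := ⟨p, rfl⟩
  fix _ _ _ _ := rfl

def Cov.comp {k : ℕ} {T'' T' T : Tr.{u}} (c : Cov k T' T) (d : Cov k T'' T') : Cov k T'' T where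
  π := c.π ∘ d.π
  len_π p := by simp [c.len_π, d.len_π]
  par_π p := by simp [c.par_π, d.par_π]
  φ e σ := c.φ e (d.φ e σ)
  loc e σ σ' n h := c.loc e _ _ n (d.loc e σ σ' n h)
  lift e σ x h := by
    obtain ⟨y, h1, h2⟩ := c.lift e _ x h
    obtain ⟨z, h3, h4⟩ := d.lift e σ y h1
    exact ⟨z, h3, fun n => by simp [h4, h2]⟩
  inj p q hp h := d.inj p q hp (c.inj _ _ (by rwa [d.len_π]) h)
  surj p hp := by
    obtain ⟨q, rfl⟩ := c.surj p hp
    obtain ⟨r, rfl⟩ := d.surj q (by rwa [c.len_π] at hp)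
    exact ⟨r, rfl⟩
  fix e σ p hp := by
    simp only [comp_apply]
    rw [c.fix e _ _ (by rwa [d.len_π]), d.fix e σ p hp]

def Dec {T : Tr.{u}} (X : Set (Br T)) : Prop :=
  ∀ x : Br T, ∃ n, ∀ y : Br T, y.1 n = x.1 n → (y ∈ X ↔ x ∈ X)

lemma Dec.pre {k : ℕ} {T' T : Tr.{u}} (c : Cov k T' T) {X : Set (Br T)} (h : Dec X) :
    Dec (c.br ⁻¹' X) := by
  intro x
  obtain ⟨n, hn⟩ := h (c.br x)
  exact ⟨n, fun y hy => hn (c.br y) (congrArg c.π hy)⟩

section Lim

variable {k : ℕ} {T : ℕ → Tr.{u}} (c : ∀ i, Cov (k + i) (T (i + 1)) (T i))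

abbrev LP : Type u := {f : ∀ i, (T i).P // ∀ i, (c i).π (f (i + 1)) = f i}

lemma LP.len (f : LP c) (i : ℕ) : (T i).len (f.1 i) = (T 0).len (f.1 0) := by
  induction i with
  | zero => rfl
  | succ i ih => rw [← ih, ← f.2 i, (c i).len_π]

lemma LP.inj (f g : LP c) (i : ℕ) (h : (T 0).len (f.1 0) ≤ k + i) (e : f.1 i = g.1 i) : f = g := by
  have up : ∀ j, f.1 (i + j) = g.1 (i + j) := by
    intro j
    induction j with
    | zero => exact e
    | succ j ih =>
      refine (c (i + j)).inj _ _ ?_ ((f.2 _).trans (ih.trans (g.2 _).symm))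
      exact (f.len c _).trans_le (by omega)
  have dn : ∀ j, j ≤ i → f.1 j = g.1 j := by
    intro j hj
    induction hj using Nat.decreasingInduction with
    | self => exact e
    | of_succ j _ ih => rw [← f.2 j, ← g.2 j, ih]
  refine Subtype.ext (funext fun j => ?_)
  rcases le_total j i with h | h
  · exact dn j h
  · obtain ⟨j, rfl⟩ := Nat.exists_eq_add_of_le h
    exact up j

/-- compatible sequences from a lifting rule -/
lemma chain {A : ℕ → Type u} (R : ∀ i, A (i + 1) → A i) (Q : ∀ i, A i → Prop) (i : ℕ)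
    (h : ∀ j, i ≤ j → ∀ a, Q j a → ∃ b, Q (j + 1) b ∧ R j b = a) (a : A i) (ha : Q i a) :
    ∃ f : ∀ j, A j, f i = a ∧ (∀ j, R j (f (j + 1)) = f j) ∧ ∀ j, i ≤ j → Q j (f j) := by
  classical
  choose s s1 s2 using h
  let g : ∀ j, i ≤ j → {b : A j // Q j b} := fun j hj =>
    Nat.leRec (motive := fun j _ => {b : A j // Q j b}) ⟨a, ha⟩
      (fun j hj b => ⟨s j hj b.1 b.2, s1 j hj b.1 b.2⟩) hj
  have g0 : g i le_rfl = ⟨a, ha⟩ := Nat.leRec_self _ _
  have g1 : ∀ j (hj : i ≤ j), R j (g (j + 1) (hj.trans j.le_succ)).1 = (g j hj).1 := by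
    intro j hj
    have : g (j + 1) (hj.trans j.le_succ) = ⟨s j hj (g j hj).1 (g j hj).2, s1 _ _ _ _⟩ :=
      Nat.leRec_succ _ _ hj
    rw [this]; exact s2 _ _ _ _
  let d : ∀ j, j ≤ i → A j := fun j hj =>
    Nat.decreasingInduction (motive := fun j _ => A j) (fun j _ b => R j b) a hj
  have d0 : d i le_rfl = a := Nat.decreasingInduction_self _ _
  have d1 : ∀ j (hj : j + 1 ≤ i), R j (d (j + 1) hj) = d j (j.le_succ.trans hj) := by
    intro j hj
    exact (Nat.decreasingInduction_succ_left _ _ hj _).symm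
  refine ⟨fun j => if hj : i ≤ j then (g j hj).1 else d j (by omega), ?_, fun j => ?_,
    fun j hj => ?_⟩
  · simp [g0]
  · by_cases h1 : i ≤ j
    · simp only [dif_pos h1, dif_pos (h1.trans j.le_succ)]; exact g1 j h1
    · by_cases h2 : i ≤ j + 1
      · obtain rfl : i = j + 1 := by omega
        simp only [dif_neg h1, dif_pos h2, g0]
        rw [← d1 j le_rfl, d0]
      · simp only [dif_neg h1, dif_neg h2]; exact d1 j (by omega)
  · simp only [dif_pos hj]; exact (g j hj).2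

lemma LP.surj (i : ℕ) (p : (T i).P) (h : (T i).len p ≤ k + i) : ∃ f : LP c, f.1 i = p := by
  obtain ⟨f, h1, h2, -⟩ := chain (A := fun i => (T i).P) (fun i => (c i).π)
    (fun j a => (T j).len a ≤ k + i) i (fun j hj a ha => by
      obtain ⟨b, rfl⟩ := (c j).surj a (by omega)
      exact ⟨b, by rwa [(c j).len_π] at ha, rfl⟩) p h
  exact ⟨⟨f, h2⟩, h1⟩

def LT : Tr.{u} where
  P := LP c
  len f := (T 0).len (f.1 0)
  par f := ⟨fun i => (T i).par (f.1 i), fun i => by rw [(c i).par_π, f.2]⟩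
  len_par f := (T 0).len_par _
  pruned f := by
    obtain ⟨i, hi⟩ : ∃ i, (T 0).len (f.1 0) + 1 ≤ k + i := ⟨(T 0).len (f.1 0) + 1, by omega⟩
    obtain ⟨q, h1, h2⟩ := (T i).pruned (f.1 i)
    rw [f.len] at h1
    obtain ⟨g, rfl⟩ := LP.surj c i q (by omega)
    rw [g.len] at h1
    exact ⟨g, h1, (LP.inj c _ _ i (by omega) h2.symm).symm⟩

lemma tau_ex (σ : Strat (LT c)) (i : ℕ) (p : (T i).P) : ∃ q, (T i).Ch q p ∧
    ∀ f : LP c, (T i).len p < k + i → f.1 i = p → q = (σ.1 f).1 i := by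
  by_cases h : (T i).len p < k + i
  · obtain ⟨f, rfl⟩ := LP.surj c i p h.le
    refine ⟨(σ.1 f).1 i, ⟨?_, congrArg (fun g : LP c => g.1 i) (σ.2 f).2⟩, fun g _ hg => ?_⟩
    · rw [LP.len, f.len]; exact (σ.2 f).1
    · rw [LP.inj c f g i (by rw [← f.len c i]; exact h.le) hg.symm]
  · obtain ⟨q, hq⟩ := (T i).pruned p
    exact ⟨q, hq, fun _ h' => absurd h' h⟩

open Classical in
noncomputable def tau (σ : Strat (LT c)) (i : ℕ) : Strat (T i) :=
  ⟨fun p => if (T i).len p < k + i then (tau_ex c σ i p).choose else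
    (Classical.arbitrary (Strat (T i))).1 p, fun p => by
      beta_reduce
      split_ifs
      exacts [(tau_ex c σ i p).choose_spec.1, (Classical.arbitrary (Strat (T i))).2 p]⟩

lemma tau_eq (σ : Strat (LT c)) (i : ℕ) (f : LP c) (h : (T 0).len (f.1 0) < k + i) :
    (tau c σ i).1 (f.1 i) = (σ.1 f).1 i := by
  rw [← f.len c i] at h
  simp only [tau, if_pos h]
  exact (tau_ex c σ i _).choose_spec.2 f h rfl

lemma tau_ag {σ σ' : Strat (LT c)} {n : ℕ} (h : Ag n σ σ') (i : ℕ) :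
    Ag n (tau c σ i) (tau c σ' i) := by
  intro p hp
  by_cases h' : (T i).len p < k + i
  · obtain ⟨f, rfl⟩ := LP.surj c i p h'.le
    rw [f.len] at h' hp
    rw [tau_eq c σ i f h', tau_eq c σ' i f h', h f hp]
  · simp only [tau, if_neg h']

noncomputable def psi (e : Bool) (σ : Strat (LT c)) : ℕ → ∀ i, Strat (T i)
  | 0, i => tau c σ i
  | m + 1, i => (c i).φ e (psi e σ m (i + 1))

lemma psi_step (e : Bool) (σ : Strat (LT c)) (m i : ℕ) :
    Ag (k + i + m) (psi c e σ (m + 1) i) (psi c e σ m i) := by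
  induction m generalizing i with
  | zero =>
    intro p hp
    obtain ⟨f, rfl⟩ := LP.surj c i p hp.le
    rw [f.len] at hp
    simp only [psi]
    rw [tau_eq c σ i f hp, ← f.2 i, (c i).fix e _ _ (by rw [f.len]; exact hp),
      tau_eq c σ (i + 1) f (by omega), (σ.1 f).2]
  | succ m ih =>
    have := (c i).loc e _ _ _ (ih (i + 1))
    rwa [show k + (i + 1) + m = k + i + (m + 1) by omega] at this

lemma psi_stab (e : Bool) (σ : Strat (LT c)) (i m m' : ℕ) (h : m ≤ m') :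
    Ag (k + i + m) (psi c e σ m' i) (psi c e σ m i) := by
  induction h with
  | refl => exact fun _ _ => rfl
  | step h ih =>
    intro p hp
    rw [psi_step c e σ _ i p (hp.trans_le (by have := Nat.le_eq ▸ h; omega)), ih p hp]

lemma psi_ag (e : Bool) {σ σ' : Strat (LT c)} {n : ℕ} (h : Ag n σ σ') (m i : ℕ) :
    Ag n (psi c e σ m i) (psi c e σ' m i) := by
  induction m generalizing i with
  | zero => exact tau_ag c h i
  | succ m ih => exact (c i).loc e _ _ n (ih (i + 1))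

noncomputable def Phi (e : Bool) (σ : Strat (LT c)) (i : ℕ) : Strat (T i) :=
  ⟨fun p => (psi c e σ ((T i).len p + 1) i).1 p, fun p => (psi c e σ _ i).2 p⟩

lemma Phi_ag (e : Bool) (σ : Strat (LT c)) (i m : ℕ) :
    Ag (k + i + m) (Phi c e σ i) (psi c e σ m i) := by
  intro p hp
  rcases le_total m ((T i).len p + 1) with h | h
  · exact psi_stab c e σ i _ _ h p hp
  · exact (psi_stab c e σ i _ _ h p (by omega)).symm

lemma Phi_down (e : Bool) (σ : Strat (LT c)) (i : ℕ) :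
    (c i).φ e (Phi c e σ (i + 1)) = Phi c e σ i := by
  refine Subtype.ext (funext fun p => ?_)
  rw [(c i).loc e _ _ _ (Phi_ag c e σ (i + 1) ((T i).len p)) p (by omega)]
  rfl

noncomputable def LCov (i : ℕ) : Cov (k + i) (LT c) (T i) where
  π f := f.1 i
  len_π f := f.len c i
  par_π _ := rfl
  φ e σ := Phi c e σ i
  loc e _ _ _ h p hp := psi_ag c e h _ i p hp
  lift e σ x h := by
    obtain ⟨y, h1, h2, h3⟩ := chain (A := fun i => Br (T i)) (fun i => (c i).br)
      (fun j y => Fol e (Phi c e σ j) y) i (fun j _ y hy => by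
        rw [← Phi_down] at hy
        obtain ⟨z, h1, h2⟩ := (c j).lift e _ y hy
        exact ⟨z, h1, Subtype.ext (funext h2)⟩) x h
    let z : ℕ → LP c := fun n => ⟨fun j => (y j).1 n, fun j => congrArg (fun w : Br (T j) => w.1 n) (h2 j)⟩
    refine ⟨⟨z, fun n => (y 0).2.1 n, fun n => Subtype.ext (funext fun j => (y j).2.2 n)⟩,
      fun n hn => ?_, fun n => by rw [← h1]⟩
    have l0 : (T 0).len ((z n).1 0) = n := (y 0).2.1 n
    refine LP.inj c _ _ (i + n + 1) (by rw [show (T 0).len _ = n + 1 from (y 0).2.1 _]; omega) ?_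
    rw [← tau_eq c σ (i + n + 1) (z n) (by omega)]
    exact (h3 (i + n + 1) (by omega) n hn).trans
      (Phi_ag c e σ _ 0 _ (by rw [(y _).2.1]; omega))
  inj f g h e := LP.inj c f g i h e
  surj p h := LP.surj c i p h
  fix e σ f h := (Phi_ag c e σ i 0 _ (by rw [f.len]; exact h)).trans (tau_eq c σ i f h)

lemma LCov_br (i : ℕ) (x : Br (LT c)) : (c i).br ((LCov c (i + 1)).br x) = (LCov c i).br x :=
  Subtype.ext (funext fun n => (x.1 n).2 i)

end Lim

end Pool.Agent.Lib.helper24.Det
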