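import Pool.Agent.Lib.helper24.DetA

set_option autoImplicit false
open Set Function

namespace Pool.Agent.Lib.helper24.Det

universe u

variable {T : Tr.{u}}

def Tr.anc (T : Tr.{u}) (p : T.P) (n : ℕ) : T.P := T.par^[T.len p - n] p

lemma len_iter (p : T.P) (m : ℕ) : T.len (T.par^[m] p) = T.len p - m := by
  induction m with
  | zero => rfl
  | succ m ih => rw [iterate_succ_apply', T.len_par, ih]; omega

lemma len_anc {p : T.P} {n : ℕ} (h : n ≤ T.len p) : T.len (T.anc p n) = n := by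
  rw [Tr.anc, len_iter]; omega

lemma anc_self {p : T.P} {n : ℕ} (h : T.len p ≤ n) : T.anc p n = p := by
  rw [Tr.anc, Nat.sub_eq_zero_of_le h]; rfl

lemma anc_par {p : T.P} {n : ℕ} (h : n < T.len p) : T.anc (T.par p) n = T.anc p n := by
  rw [Tr.anc, Tr.anc, T.len_par, show T.len p - n = T.len p - 1 - n + 1 by omega]; rfl

lemma anc_ch {p q : T.P} {n : ℕ} (h : T.Ch q p) (hn : n ≤ T.len p) : T.anc q n = T.anc p n := by
  rw [← h.2, anc_par (by rw [h.1]; omega)]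

lemma anc_br (x : Br T) {n m : ℕ} (h : n ≤ m) : T.anc (x.1 m) n = x.1 n := by
  induction h with
  | refl => exact anc_self (x.2.1 n).le
  | step h ih => rw [anc_ch (x.ch _) (by rw [x.2.1]; exact h), ih]

lemma ch_anc {p : T.P} {n : ℕ} (h : n < T.len p) : T.Ch (T.anc p (n + 1)) (T.anc p n) := by
  refine ⟨by rw [len_anc h, len_anc h.le], ?_⟩
  rw [Tr.anc, Tr.anc, show T.len p - n = T.len p - (n + 1) + 1 by omega, iterate_succ_apply']

lemma anc_anc {p : T.P} {n m : ℕ} (h : m ≤ n) : T.anc (T.anc p n) m = T.anc p m := by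
  rcases le_total n (T.len p) with h1 | h1
  · conv_lhs => rw [Tr.anc, len_anc h1, Tr.anc, ← iterate_add_apply]
    rw [Tr.anc]; congr 1; omega
  · rw [anc_self h1]

inductive WL (e : Bool) (S B : Set T.P) : Ordinal.{u} → T.P → Prop
  | base (a : Ordinal.{u}) (p : T.P) : p ∈ B → WL e S B a p
  | mine (a b : Ordinal.{u}) (p q : T.P) : (T.len p).bodd = e → T.Ch q p → q ∈ S → b < a →
      WL e S B b q → WL e S B a p
  | theirs (a : Ordinal.{u}) (p : T.P) (f : T.P → Ordinal.{u}) : (T.len p).bodd ≠ e →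
      (∀ q, T.Ch q p → q ∈ S → f q < a) → (∀ q, T.Ch q p → q ∈ S → WL e S B (f q) q) →
      WL e S B a p

def Win (e : Bool) (S B : Set T.P) (p : T.P) : Prop := ∃ a, WL e S B a p

noncomputable def rk (e : Bool) (S B : Set T.P) (p : T.P) : Ordinal.{u} := sInf {a | WL e S B a p}

variable {e : Bool} {S B : Set T.P}

lemma win_base {p : T.P} (h : p ∈ B) : Win e S B p := ⟨0, .base _ _ h⟩

lemma win_mine {p q : T.P} (h : (T.len p).bodd = e) (hc : T.Ch q p) (hq : q ∈ S)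
    (hw : Win e S B q) : Win e S B p := by
  obtain ⟨a, ha⟩ := hw
  exact ⟨a + 1, .mine _ a p q h hc hq (Order.lt_succ a) ha⟩

lemma win_theirs {p : T.P} (h : (T.len p).bodd ≠ e)
    (hw : ∀ q, T.Ch q p → q ∈ S → Win e S B q) : Win e S B p := by
  choose! f hf using hw
  exact ⟨⨆ q, f q + 1, .theirs _ p f h
    (fun q _ _ => (Order.lt_succ (f q)).trans_le (Ordinal.le_iSup (fun q => f q + 1) q)) hf⟩

lemma rk_le {a : Ordinal.{u}} {p : T.P} (h : WL e S B a p) : rk e S B p ≤ a :=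
  csInf_le' (s := {a | WL e S B a p}) h

lemma win_step {p : T.P} (hw : Win e S B p) (hp : p ∉ B) :
    ((T.len p).bodd = e → ∃ q, T.Ch q p ∧ q ∈ S ∧ Win e S B q ∧ rk e S B q < rk e S B p) ∧
    ((T.len p).bodd ≠ e → ∀ q, T.Ch q p → q ∈ S → Win e S B q ∧ rk e S B q < rk e S B p) := by
  have h : WL e S B (rk e S B p) p := csInf_mem (s := {a | WL e S B a p}) hw
  generalize rk e S B p = a at h
  cases h with
  | base _ _ h => exact absurd h hp
  | mine _ b _ q h1 h2 h3 h4 h5 =>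
    exact ⟨fun _ => ⟨q, h2, h3, ⟨b, h5⟩, (rk_le h5).trans_lt h4⟩, fun h => absurd h1 h⟩
  | theirs _ _ f h1 h2 h3 =>
    exact ⟨fun h => absurd h h1,
      fun _ q hq hs => ⟨⟨_, h3 q hq hs⟩, (rk_le (h3 q hq hs)).trans_lt (h2 q hq hs)⟩⟩

lemma ws_ex (e : Bool) (S B : Set T.P) (p : T.P) : ∃ q, T.Ch q p ∧ (Win e S B p → p ∉ B →
    (T.len p).bodd = e → q ∈ S ∧ Win e S B q ∧ rk e S B q < rk e S B p) := by
  by_cases h : Win e S B p ∧ p ∉ B ∧ (T.len p).bodd = e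
  · obtain ⟨q, h1, h2⟩ := (win_step h.1 h.2.1).1 h.2.2
    exact ⟨q, h1, fun _ _ _ => h2⟩
  · obtain ⟨q, hq⟩ := T.pruned p
    exact ⟨q, hq, fun a b c => absurd ⟨a, b, c⟩ h⟩

noncomputable def ws (e : Bool) (S B : Set T.P) : Strat T :=
  ⟨fun p => (ws_ex e S B p).choose, fun p => (ws_ex e S B p).choose_spec.1⟩

lemma reach (hS : ∀ p ∈ S, (T.len p).bodd ≠ e → ∀ q, T.Ch q p → q ∈ S) (x : Br T) (j : ℕ)
    (h1 : x.1 j ∈ S) (h2 : Win e S B (x.1 j))
    (h : ∀ n, j ≤ n → (∀ m, j ≤ m → m ≤ n → x.1 m ∉ B) → Win e S B (x.1 n) → n.bodd = e →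
      x.1 (n + 1) = (ws e S B).1 (x.1 n)) :
    ∃ n, j ≤ n ∧ x.1 n ∈ B ∧ x.1 n ∈ S ∧ ∀ m, j ≤ m → m < n → x.1 m ∉ B := by
  generalize ha : rk e S B (x.1 j) = a
  induction a using WellFoundedLT.induction generalizing j with
  | ind a ih =>
    by_cases hb : x.1 j ∈ B
    · exact ⟨j, le_rfl, hb, h1, fun m h3 h4 => by omega⟩
    have key : x.1 (j + 1) ∈ S ∧ Win e S B (x.1 (j + 1)) ∧
        rk e S B (x.1 (j + 1)) < rk e S B (x.1 j) := by
      by_cases ht : j.bodd = e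
      · rw [h j le_rfl (fun m h3 h4 => by rwa [le_antisymm h4 h3]) h2 ht]
        exact (ws_ex e S B _).choose_spec.2 h2 hb (by rwa [x.2.1])
      · have := hS _ h1 (by rwa [x.2.1]) _ (x.ch j)
        exact ⟨this, (win_step h2 hb).2 (by rwa [x.2.1]) _ (x.ch j) this⟩
    have aux : ∀ n, (∀ m, j + 1 ≤ m → m < n → x.1 m ∉ B) → ∀ m, j ≤ m → m < n → x.1 m ∉ B := by
      intro n h3 m h4 h5
      rcases h4.eq_or_lt with rfl | h4
      exacts [hb, h3 m h4 h5]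
    obtain ⟨n, a1, a2, a3, a4⟩ := ih _ (ha ▸ key.2.2) (j + 1) key.1 key.2.1
      (fun n h3 h4 => h n (by omega) fun m h5 h6 =>
        aux (n + 1) (fun m h7 h8 => h4 m h7 (by omega)) m h5 (by omega)) rfl
    exact ⟨n, by omega, a2, a3, aux n a4⟩

lemma win_above (hS : ∀ p ∈ S, (T.len p).bodd ≠ e → ∀ q, T.Ch q p → q ∈ S) {p : T.P}
    (hw : Win e S B p) (hp : p ∈ S) :
    ∃ v ∈ S, v ∈ B ∧ T.len p ≤ T.len v ∧ T.anc v (T.len p) = p := by
  obtain ⟨a, ha⟩ := hw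
  have up : ∀ p q v : T.P, T.Ch q p → T.len q ≤ T.len v → T.anc v (T.len q) = q →
      T.len p ≤ T.len v ∧ T.anc v (T.len p) = p := by
    intro p q v h1 h2 h3
    have := h1.1
    refine ⟨by omega, ?_⟩
    rw [← anc_anc (show T.len p ≤ T.len q by omega), h3, anc_ch h1 le_rfl, anc_self le_rfl]
  induction ha with
  | base _ p h => exact ⟨p, hp, h, le_rfl, anc_self le_rfl⟩
  | mine _ b p q h1 h2 h3 h4 h5 ih =>
    obtain ⟨v, a1, a2, a3, a4⟩ := ih h3
    exact ⟨v, a1, a2, up p q v h2 a3 a4⟩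
  | theirs _ p f h1 h2 h3 ih =>
    obtain ⟨q, hq⟩ := T.pruned p
    obtain ⟨v, a1, a2, a3, a4⟩ := ih q hq (hS p hp h1 q hq) (hS p hp h1 q hq)
    exact ⟨v, a1, a2, up p q v hq a3 a4⟩

/-- quasi-strategies for player `e` -/
def QS (e : Bool) (S : Set T.P) : Prop :=
  (∀ p ∈ S, (T.len p).bodd ≠ e → ∀ q, T.Ch q p → q ∈ S) ∧
    ∀ p ∈ S, (T.len p).bodd = e → ∃ q ∈ S, T.Ch q p

lemma qs_univ : QS e (univ : Set T.P) :=
  ⟨fun _ _ _ _ _ => trivial, fun p _ _ => by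
    obtain ⟨q, hq⟩ := T.pruned p
    exact ⟨q, trivial, hq⟩⟩

lemma qs_lose (e : Bool) (B : Set T.P) : QS e {p | ¬ Win (!e) univ B p} := by
  refine ⟨fun p hp h q hq hw => hp (win_mine (Bool.eq_not_of_ne h) hq trivial hw), fun p hp h => ?_⟩
  by_contra h'
  push Not at h'
  exact hp (win_theirs (by simp [h]) fun q hq _ => by
    by_contra h2
    exact h' q h2 hq)

lemma lose_child (hS : QS e S) {p : T.P} (hp : p ∈ S) (hw : ¬ Win e S B p) :
    ∃ q, T.Ch q p ∧ q ∈ S ∧ ¬ Win e S B q := by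
  by_cases h : (T.len p).bodd = e
  · obtain ⟨q, h1, h2⟩ := hS.2 p hp h
    exact ⟨q, h2, h1, fun h3 => hw (win_mine h h2 h1 h3)⟩
  · by_contra h'
    push Not at h'
    exact hw (win_theirs h h')

end Pool.Agent.Lib.helper24.Det
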