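import Pool.Agent.Lib.helper24.DetB

set_option autoImplicit false
open Set Function

namespace Pool.Agent.Lib.helper24.Det

universe u

variable {T : Tr.{u}}

structure Val (k : ℕ) (B : Set T.P) (t : T.P) (S : Set T.P) (o : Option T.P) : Prop where
  s0 : T.len t ≤ k → S = univ
  o0 : T.len t ≤ k + 1 → o = none
  qs : QS k.bodd S
  mem : T.anc t (k + 1) ∈ S
  no : o = none → ∀ n, k + 2 ≤ n → n ≤ T.len t → T.anc t n ∈ S ∧ ¬ Win k.bodd S B (T.anc t n)
  so : ∀ u, o = some u → u ∈ S ∧ u ∈ B ∧ k + 2 ≤ T.len u ∧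
    ∀ n, n ≤ T.len t → n ≤ T.len u → T.anc t n = T.anc u n

abbrev Raw (T : Tr.{u}) : Type u := T.P × Set T.P × Option T.P

variable {k : ℕ} {B : Set T.P}

lemma val_low {t : T.P} (h : T.len t ≤ k + 1) : Val k B t univ none :=
  ⟨fun _ => rfl, fun _ => rfl, qs_univ, trivial, fun _ n h1 h2 => by omega, fun _ h => by cases h⟩

lemma val_mid {t : T.P} {S : Set T.P} (h : T.len t = k + 1) (hS : QS k.bodd S) (ht : t ∈ S) :
    Val k B t S none :=
  ⟨fun _ => by omega, fun _ => rfl, hS, by rwa [anc_self h.le], fun _ n h1 h2 => by omega,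
    fun _ h => by cases h⟩

lemma Val.par {t : T.P} {S : Set T.P} {o : Option T.P} (h : Val k B t S o) :
    Val k B (T.par t) (if T.len t ≤ k + 1 then univ else S)
      (if T.len t ≤ k + 2 then none else o) := by
  have hl := T.len_par t
  by_cases h1 : T.len t ≤ k + 1
  · rw [if_pos h1, if_pos (by omega)]; exact val_low (by omega)
  rw [if_neg h1]
  by_cases h2 : T.len t ≤ k + 2
  · rw [if_pos h2]
    refine val_mid (by omega) h.qs ?_
    have := h.mem
    rwa [← anc_par (by omega), anc_self (by omega)] at this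
  rw [if_neg h2]
  refine ⟨fun _ => by omega, fun _ => by omega, h.qs, ?_, fun ho n a b => ?_, fun u hu => ?_⟩
  · rw [anc_par (by omega)]; exact h.mem
  · rw [anc_par (by omega)]; exact h.no ho n a (by omega)
  · obtain ⟨a1, a2, a3, a4⟩ := h.so u hu
    refine ⟨a1, a2, a3, fun n a b => ?_⟩
    rw [anc_par (by omega)]; exact a4 n (by omega) b

lemma val_none {t q : T.P} {S : Set T.P} (h : Val k B t S none) (hl : k + 1 ≤ T.len t)
    (hq : T.Ch q t) (h1 : q ∈ S) (h2 : ¬ Win k.bodd S B q) : Val k B q S none := by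
  have := hq.1
  refine ⟨fun _ => by omega, fun _ => rfl, h.qs, by rw [anc_ch hq hl]; exact h.mem,
    fun _ n a b => ?_, fun _ h => by cases h⟩
  rcases b.eq_or_lt with rfl | b
  · rw [anc_self le_rfl]; exact ⟨h1, h2⟩
  · rw [anc_ch hq (by omega)]; exact h.no rfl n a (by omega)

lemma val_some {t u : T.P} {S : Set T.P} (hS : QS k.bodd S) (hl : k + 2 ≤ T.len t)
    (h0 : T.anc u (k + 1) ∈ S) (h1 : u ∈ S) (h2 : u ∈ B) (h3 : k + 2 ≤ T.len u)
    (h4 : ∀ n, n ≤ T.len t → n ≤ T.len u → T.anc t n = T.anc u n) : Val k B t S (some u) :=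
  ⟨fun _ => by omega, fun _ => by omega, hS, by rw [h4 _ (by omega) (by omega)]; exact h0,
    fun h => (by cases h), fun v hv => by cases hv; exact ⟨h1, h2, h3, h4⟩⟩

lemma val_child (hB : ∀ p ∈ B, ∀ q, T.Ch q p → q ∈ B) {t : T.P} {S : Set T.P} {o : Option T.P}
    (h : Val k B t S o) : ∃ q o', T.Ch q t ∧ Val k B q S o' ∧ (k + 2 ≤ T.len t → o' = o) := by
  by_cases h1 : T.len t ≤ k
  · obtain ⟨q, hq⟩ := T.pruned t
    rw [h.s0 h1]
    exact ⟨q, none, hq, val_low (by omega), fun _ => by omega⟩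
  have ext : ∀ u, T.len t < T.len u → T.anc u (T.len t) = t → u ∈ S → u ∈ B →
      T.Ch (T.anc u (T.len t + 1)) t ∧ Val k B (T.anc u (T.len t + 1)) S (some u) := by
    intro u a1 a2 a3 a4
    refine ⟨by simpa [a2] using ch_anc a1, val_some h.qs (by rw [len_anc a1]; omega) ?_ a3 a4
      (by omega) fun n a b => anc_anc (by rwa [len_anc a1] at a)⟩
    rw [← anc_anc (show k + 1 ≤ T.len t by omega), a2]; exact h.mem
  cases o with
  | none =>
    have ht : t ∈ S := by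
      by_cases h2 : T.len t ≤ k + 1
      · simpa [anc_self h2] using h.mem
      · simpa [anc_self] using (h.no rfl (T.len t) (by omega) le_rfl).1
    by_cases hw : Win k.bodd S B t
    · have h2 : T.len t = k + 1 := by
        by_contra h2
        exact (h.no rfl (T.len t) (by omega) le_rfl).2 (by rwa [anc_self le_rfl])
      obtain ⟨v, a1, a2, a3, a4⟩ := win_above h.qs.1 hw ht
      rcases a3.eq_or_lt with a3 | a3
      · obtain rfl : v = t := by rw [← a4, anc_self a3.ge]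
        obtain ⟨q, hq⟩ := T.pruned v
        obtain ⟨b1, b2⟩ := ext q (by omega) (by rw [anc_ch hq le_rfl, anc_self le_rfl])
          (h.qs.1 v a1 (by simp [h2]) q hq) (hB v a2 q hq)
        exact ⟨_, _, b1, b2, fun _ => by omega⟩
      · obtain ⟨b1, b2⟩ := ext v a3 a4 a1 a2
        exact ⟨_, _, b1, b2, fun _ => by omega⟩
    · obtain ⟨q, b1, b2, b3⟩ := lose_child h.qs ht hw
      exact ⟨q, none, b1, val_none h (by omega) b1 b2 b3, fun _ => rfl⟩
  | some u =>
    obtain ⟨a1, a2, a3, a4⟩ := h.so u rfl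
    by_cases h2 : T.len t < T.len u
    · obtain ⟨b1, b2⟩ := ext u h2 (by rw [← a4 _ le_rfl h2.le, anc_self le_rfl]) a1 a2
      exact ⟨_, _, b1, b2, fun _ => rfl⟩
    · obtain ⟨q, hq⟩ := T.pruned t
      refine ⟨q, _, hq, val_some h.qs (by omega) ?_ a1 a2 a3 fun n a b => ?_, fun _ => rfl⟩
      · rw [← a4 _ (by omega) (by omega)]; exact h.mem
      · rw [anc_ch hq (by omega), a4 _ (by omega) b]

/-- the unravelling tree -/
def UT (k : ℕ) (B : Set T.P) (hB : ∀ p ∈ B, ∀ q, T.Ch q p → q ∈ B) : Tr.{u} where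
  P := {r : Raw T // Val k B r.1 r.2.1 r.2.2}
  len r := T.len r.1.1
  par r := ⟨(T.par r.1.1, if T.len r.1.1 ≤ k + 1 then univ else r.1.2.1,
    if T.len r.1.1 ≤ k + 2 then none else r.1.2.2), r.2.par⟩
  len_par r := T.len_par _
  pruned r := by
    obtain ⟨⟨t, S, o⟩, h⟩ := r
    replace h : Val k B t S o := h
    obtain ⟨q, o', h1, h2, h3⟩ := val_child hB h
    have := h1.1
    refine ⟨⟨(q, S, o'), h2⟩, h1.1, Subtype.ext (Prod.ext h1.2 (Prod.ext ?_ ?_))⟩
    · dsimp only at *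
      split_ifs with a
      exacts [(h.s0 (by omega)).symm, rfl]
    · dsimp only at *
      split_ifs with a
      exacts [(h.o0 (by omega)).symm, h3 (by omega)]

variable {hB : ∀ p ∈ B, ∀ q, T.Ch q p → q ∈ B}

lemma UT_ch {q p : (UT k B hB).P} (h : (UT k B hB).Ch q p) : T.Ch q.1.1 p.1.1 ∧
    (k + 1 ≤ T.len p.1.1 → q.1.2.1 = p.1.2.1) ∧ (k + 2 ≤ T.len p.1.1 → q.1.2.2 = p.1.2.2) := by
  obtain ⟨h1, rfl⟩ := h
  have h2 : T.len q.1.1 = T.len (T.par q.1.1) + 1 := h1
  refine ⟨⟨h2, rfl⟩, fun a => (if_neg ?_).symm, fun a => (if_neg ?_).symm⟩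
  · change k + 1 ≤ T.len (T.par q.1.1) at a; omega
  · change k + 2 ≤ T.len (T.par q.1.1) at a; omega

open Classical in
noncomputable def ex (σ : Strat (UT k B hB)) (r : Raw T) : Raw T :=
  if h : Val k B r.1 r.2.1 r.2.2 then (σ.1 ⟨r, h⟩).1
  else ((Classical.arbitrary (Strat T)).1 r.1, univ, none)

lemma ex_eq (σ : Strat (UT k B hB)) (p : (UT k B hB).P) : ex σ p.1 = (σ.1 p).1 := dif_pos p.2

/-- what is used of a strategy in the unravelling tree -/
structure Gd (k : ℕ) (B : Set T.P) (g : Raw T → Raw T) : Prop where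
  ch : ∀ r, T.Ch (g r).1 r.1
  val : ∀ t S o, Val k B t S o → Val k B (g (t, S, o)).1 (g (t, S, o)).2.1 (g (t, S, o)).2.2
  s : ∀ t S o, Val k B t S o → k + 1 ≤ T.len t → (g (t, S, o)).2.1 = S
  o : ∀ t S o, Val k B t S o → k + 2 ≤ T.len t → (g (t, S, o)).2.2 = o

lemma ex_gd (σ : Strat (UT k B hB)) : Gd k B (ex σ) := by
  refine ⟨fun r => ?_, fun t S o h => ?_, fun t S o h => ?_, fun t S o h => ?_⟩
  · unfold ex
    split_ifs with h
    exacts [(UT_ch (σ.2 ⟨r, h⟩)).1, (Classical.arbitrary (Strat T)).2 _]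
  · rw [ex_eq σ ⟨(t, S, o), h⟩]; exact (σ.1 _).2
  · rw [ex_eq σ ⟨(t, S, o), h⟩]; exact (UT_ch (σ.2 ⟨(t, S, o), h⟩)).2.1
  · rw [ex_eq σ ⟨(t, S, o), h⟩]; exact (UT_ch (σ.2 ⟨(t, S, o), h⟩)).2.2

lemma ex_ag {σ σ' : Strat (UT k B hB)} {n : ℕ} (h : Ag n σ σ') (r : Raw T)
    (hr : T.len r.1 < n) : ex σ r = ex σ' r := by
  unfold ex
  split_ifs with h1
  exacts [congrArg Subtype.val (h ⟨r, h1⟩ hr), rfl]

lemma lift_of (σ : Strat (UT k B hB)) (e : Bool) (x : Br T) (S : Set T.P) (o : Option T.P)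
    (h1 : Val k B (x.1 (k + 1)) S none) (h2 : ∀ n, k + 2 ≤ n → Val k B (x.1 n) S o)
    (a0 : ∀ n, n ≤ k → n.bodd = e → (ex σ (x.1 n, univ, none)).1 = x.1 (n + 1))
    (a1 : k.bodd = e → (ex σ (x.1 k, univ, none)).2.1 = S)
    (a2 : k.bodd ≠ e → (ex σ (x.1 (k + 1), S, none)).1 = x.1 (k + 2) ∧
      (ex σ (x.1 (k + 1), S, none)).2.2 = o)
    (a3 : ∀ n, k + 2 ≤ n → n.bodd = e → (ex σ (x.1 n, S, o)).1 = x.1 (n + 1)) :
    ∃ x' : Br (UT k B hB), Fol e σ x' ∧ ∀ n, (x'.1 n).1.1 = x.1 n := by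
  have hv : ∀ n, Val k B (x.1 n) (if n ≤ k then univ else S) (if n ≤ k + 1 then none else o) := by
    intro n
    by_cases b1 : n ≤ k
    · rw [if_pos b1, if_pos (by omega)]; exact val_low (by rw [x.2.1]; omega)
    rw [if_neg b1]
    by_cases b2 : n ≤ k + 1
    · obtain rfl : n = k + 1 := by omega
      rw [if_pos b2]; exact h1
    · rw [if_neg b2]; exact h2 n (by omega)
  refine ⟨⟨fun n => ⟨(x.1 n, if n ≤ k then univ else S, if n ≤ k + 1 then none else o), hv n⟩,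
    x.2.1, fun n => Subtype.ext (Prod.ext (x.2.2 n) (Prod.ext ?_ ?_))⟩, fun n hn => ?_,
    fun _ => rfl⟩
  · simp only [UT, x.2.1]
    split_ifs <;> first | rfl | omega
  · simp only [UT, x.2.1]
    split_ifs <;> first | rfl | omega
  refine Subtype.ext ?_
  rw [← ex_eq]
  dsimp only
  have G := ex_gd σ
  have l := x.2.1 n
  have hv' := hv n
  have c := (G.ch (x.1 n, if n ≤ k then univ else S, if n ≤ k + 1 then none else o)).1
  have v := G.val _ _ _ hv'
  dsimp only at c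
  rcases lt_trichotomy n k with b | rfl | b
  · rw [if_pos b.le, if_pos (by omega : n ≤ k + 1)] at *
    rw [if_pos (by omega), if_pos (by omega)]
    exact (Prod.ext (a0 n b.le hn) (Prod.ext (v.s0 (by omega)) (v.o0 (by omega)))).symm
  · rw [if_pos le_rfl, if_pos (by omega : n ≤ n + 1)] at *
    rw [if_neg (by omega), if_pos (by omega)]
    exact (Prod.ext (a0 n le_rfl hn) (Prod.ext (a1 hn) (v.o0 (by omega)))).symm
  rw [if_neg (by omega : ¬ n ≤ k)] at *
  rw [if_neg (by omega : ¬ n + 1 ≤ k), if_neg (by omega : ¬ n + 1 ≤ k + 1)]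
  by_cases b2 : n ≤ k + 1
  · obtain rfl : n = k + 1 := by omega
    rw [if_pos le_rfl] at *
    have := a2 (by rw [← hn]; simp)
    exact (Prod.ext this.1 (Prod.ext (G.s _ _ _ hv' (by omega)) this.2)).symm
  · rw [if_neg b2] at *
    exact (Prod.ext (a3 n (by omega) hn)
      (Prod.ext (G.s _ _ _ hv' (by omega)) (G.o _ _ _ hv' (by omega)))).symm

end Pool.Agent.Lib.helper24.Det
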