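import Pool.Agent.Lib.helper24.DetC

set_option autoImplicit false
open Set Function

namespace Pool.Agent.Lib.helper24.Det

universe u

variable {T : Tr.{u}} {k : ℕ} {B : Set T.P} {hB : ∀ p ∈ B, ∀ q, T.Ch q p → q ∈ B}

def Hs (k : ℕ) (U : Set T.P) (p : T.P) : Set ℕ := {m | k + 2 ≤ m ∧ m ≤ T.len p ∧ T.anc p m ∈ U}

open Classical in
noncomputable def core (k : ℕ) (e : Bool) (W U : Set T.P) (wit : T.P → Set T.P) (S0 : Set T.P)
    (g : Raw T → Raw T) (p : T.P) : T.P :=
  if (Hs k U p).Nonempty then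
    (g (p, wit (T.anc p (sInf (Hs k U p))), some (T.anc p (sInf (Hs k U p))))).1
  else if Win e W U p then (ws e W U).1 p else (g (p, S0, none)).1

variable {e : Bool} {W U : Set T.P} {wit : T.P → Set T.P} {S0 : Set T.P} {g g' : Raw T → Raw T}

lemma core_ch (G : ∀ r, T.Ch (g r).1 r.1) (p : T.P) : T.Ch (core k e W U wit S0 g p) p := by
  unfold core
  split_ifs
  exacts [G _, (ws e W U).2 p, G _]

lemma core_ag {p : T.P} (h : ∀ S o, g (p, S, o) = g' (p, S, o)) :
    core k e W U wit S0 g p = core k e W U wit S0 g' p := by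
  simp only [core, h]

lemma mem_Hs (x : Br T) (n m : ℕ) : m ∈ Hs k U (x.1 n) ↔ k + 2 ≤ m ∧ m ≤ n ∧ x.1 m ∈ U := by
  simp only [Hs, mem_ofPred_eq, x.2.1]
  exact and_congr_right fun _ => and_congr_right fun h => by rw [anc_br x h]

lemma core_win (x : Br T) (n : ℕ) (h : ∀ m, k + 2 ≤ m → m ≤ n → x.1 m ∉ U)
    (hw : Win e W U (x.1 n)) : core k e W U wit S0 g (x.1 n) = (ws e W U).1 (x.1 n) := by
  rw [core, if_neg, if_pos hw]
  rintro ⟨m, hm⟩
  rw [mem_Hs] at hm
  exact h m hm.1 hm.2.1 hm.2.2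

lemma core_lose (x : Br T) (n : ℕ) (h : ∀ m, k + 2 ≤ m → m ≤ n → ¬ Win e W U (x.1 m))
    (hw : ¬ Win e W U (x.1 n)) : core k e W U wit S0 g (x.1 n) = (g (x.1 n, S0, none)).1 := by
  rw [core, if_neg, if_neg hw]
  rintro ⟨m, hm⟩
  rw [mem_Hs] at hm
  exact h m hm.1 hm.2.1 (win_base hm.2.2)

lemma core_hit (x : Br T) {n m : ℕ} (h1 : k + 2 ≤ m) (h2 : m ≤ n) (h3 : x.1 m ∈ U)
    (h4 : ∀ i, k + 2 ≤ i → i < m → x.1 i ∉ U) :
    core k e W U wit S0 g (x.1 n) = (g (x.1 n, wit (x.1 m), some (x.1 m))).1 := by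
  have hm : m ∈ Hs k U (x.1 n) := (mem_Hs x n m).2 ⟨h1, h2, h3⟩
  have : sInf (Hs k U (x.1 n)) = m := by
    refine le_antisymm (Nat.sInf_le hm) (not_lt.1 fun h => ?_)
    have := (mem_Hs x n _).1 (Nat.sInf_mem ⟨m, hm⟩)
    exact h4 _ this.1 h this.2.2
  rw [core, if_pos ⟨m, hm⟩, this, anc_br x h2]

lemma core_reach (hW : ∀ p ∈ W, (T.len p).bodd ≠ e → ∀ q, T.Ch q p → q ∈ W) (x : Br T)
    (hx : ∀ n, k + 1 ≤ n → n.bodd = e → x.1 (n + 1) = core k e W U wit S0 g (x.1 n)) {j : ℕ}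
    (h0 : k + 1 ≤ j) (h1 : x.1 j ∈ W) (h2 : Win e W U (x.1 j))
    (h3 : ∀ i, k + 2 ≤ i → i < j → ¬ Win e W U (x.1 i)) :
    ∃ m, j ≤ m ∧ x.1 m ∈ U ∧ x.1 m ∈ W ∧ ∀ i, k + 2 ≤ i → i < m → x.1 i ∉ U := by
  have aux : ∀ n, (∀ m, j ≤ m → m < n → x.1 m ∉ U) → ∀ i, k + 2 ≤ i → i < n → x.1 i ∉ U := by
    intro n h i a b
    by_cases c : i < j
    exacts [fun d => h3 i a c (win_base d), h i (by omega) b]
  obtain ⟨m, a1, a2, a3, a4⟩ := reach hW x j h1 h2 (fun n a b c d => by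
    rw [hx n (by omega) d, core_win x n (fun m a' b' =>
      aux (n + 1) (fun m a b' => b m a (by omega)) m a' (by omega)) c])
  exact ⟨m, a1, a2, a3, aux m a4⟩

lemma lift_some (σ : Strat (UT k B hB)) (e : Bool) (x : Br T) (S : Set T.P) (m : ℕ)
    (h0 : k + 2 ≤ m) (h1 : Val k B (x.1 (k + 1)) S none) (h2 : x.1 m ∈ S) (h3 : x.1 m ∈ B)
    (a0 : ∀ n, n ≤ k → n.bodd = e → (ex σ (x.1 n, univ, none)).1 = x.1 (n + 1))
    (a1 : k.bodd = e → (ex σ (x.1 k, univ, none)).2.1 = S)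
    (a2 : k.bodd ≠ e → (ex σ (x.1 (k + 1), S, none)).2.2 = some (x.1 m))
    (a3 : ∀ n, m ≤ n → n.bodd = e → (ex σ (x.1 n, S, some (x.1 m))).1 = x.1 (n + 1)) :
    ∃ x' : Br (UT k B hB), Fol e σ x' ∧ ∀ n, (x'.1 n).1.1 = x.1 n := by
  have G := ex_gd σ
  have hv : ∀ n, k + 2 ≤ n → Val k B (x.1 n) S (some (x.1 m)) := fun n hn =>
    val_some h1.qs (by rwa [x.2.1]) (by
      have := h1.mem
      rwa [anc_br x le_rfl, ← anc_br x (show k + 1 ≤ m by omega)] at this) h2 h3 (by rwa [x.2.1])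
      fun i a b => by rw [x.2.1] at a b; rw [anc_br x a, anc_br x b]
  have forced : ∀ n o, n < m → Val k B (x.1 n) S o → (ex σ (x.1 n, S, o)).2.2 = some (x.1 m) →
      (ex σ (x.1 n, S, o)).1 = x.1 (n + 1) := by
    intro n o a b c
    have l : T.len (ex σ (x.1 n, S, o)).1 = n + 1 := by rw [(G.ch _).1, x.2.1]
    have := ((G.val _ _ _ b).so _ c).2.2.2 (n + 1) l.ge (by rwa [x.2.1])
    rwa [anc_self l.le, anc_br x a] at this
  refine lift_of σ e x S (some (x.1 m)) h1 hv a0 a1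
    (fun h => ⟨forced _ _ (by omega) h1 (a2 h), a2 h⟩) fun n a b => ?_
  by_cases c : n < m
  · exact forced n _ c (hv n a) (G.o _ _ _ (hv n a) (by rwa [x.2.1]))
  · exact a3 n (by omega) b

noncomputable def phiP (k : ℕ) (B : Set T.P) (g : Raw T → Raw T) (p : T.P) : T.P :=
  if T.len p ≤ k then (g (p, univ, none)).1 else
    core k k.bodd (g (T.anc p k, univ, none)).2.1 B (fun _ => (g (T.anc p k, univ, none)).2.1)
      (g (T.anc p k, univ, none)).2.1 g p

def UR (k : ℕ) (B : Set T.P) (g : Raw T → Raw T) (t u : T.P) (S : Set T.P) : Prop :=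
  Val k B t S none ∧ (g (t, S, none)).2.2 = some u

noncomputable def phiQ (k : ℕ) (B : Set T.P) (g : Raw T → Raw T) (p : T.P) : T.P :=
  if T.len p ≤ k then (g (p, univ, none)).1 else
    core k (!k.bodd) univ {u | ∃ S, UR k B g (T.anc p (k + 1)) u S}
      (fun u => Classical.epsilon (UR k B g (T.anc p (k + 1)) u))
      {q | ¬ Win (!k.bodd) univ {u | ∃ S, UR k B g (T.anc p (k + 1)) u S} q} g p

lemma liftP (σ : Strat (UT k B hB)) (x : Br T)
    (hx : ∀ n, n.bodd = k.bodd → x.1 (n + 1) = phiP k B (ex σ) (x.1 n)) :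
    ∃ x' : Br (UT k B hB), Fol k.bodd σ x' ∧ ∀ n, (x'.1 n).1.1 = x.1 n := by
  classical
  have G := ex_gd σ
  obtain ⟨S, hS⟩ : ∃ S, (ex σ (x.1 k, univ, none)).2.1 = S := ⟨_, rfl⟩
  have a0 : ∀ n, n ≤ k → n.bodd = k.bodd → (ex σ (x.1 n, univ, none)).1 = x.1 (n + 1) :=
    fun n a b => by rw [hx n b, phiP, if_pos (by rwa [x.2.1])]
  have hc : ∀ n, k + 1 ≤ n → n.bodd = k.bodd →
      x.1 (n + 1) = core k k.bodd S B (fun _ => S) S (ex σ) (x.1 n) := fun n a b => by
    rw [hx n b, phiP, if_neg (by rw [x.2.1]; omega), anc_br x (by omega), hS]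
  have h1 : Val k B (x.1 (k + 1)) S none := by
    have v := G.val _ _ _ (val_low (k := k) (B := B) (t := x.1 k) (by rw [x.2.1]; omega))
    rw [a0 k le_rfl rfl, hS] at v
    rwa [v.o0 (x.2.1 _).le] at v
  have step : ∀ n, k + 1 ≤ n → (∀ i, k + 2 ≤ i → i ≤ n → ¬ Win k.bodd S B (x.1 i)) →
      Val k B (x.1 n) S none → x.1 (n + 1) ∈ S := by
    intro n a b v
    have hn : x.1 n ∈ S := by
      rcases a.eq_or_lt with rfl | a
      · simpa [anc_br] using v.mem
      · simpa [anc_br] using (v.no rfl n a (x.2.1 _).ge).1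
    by_cases c : n.bodd = k.bodd
    · have a' : k + 2 ≤ n := by
        by_contra h
        obtain rfl : n = k + 1 := by omega
        simp at c
      have v' := G.val _ _ _ v
      rw [← core_lose (wit := fun _ => S) x n b (b n a' le_rfl), ← hc n a c,
        G.s _ _ _ v (by rwa [x.2.1]), G.o _ _ _ v (by rwa [x.2.1])] at v'
      simpa [anc_br] using (v'.no rfl (n + 1) (by omega) (x.2.1 _).ge).1
    · exact v.qs.1 _ hn (by rwa [x.2.1]) _ (x.ch n)
  have hv : ∀ n, k + 1 ≤ n → (∀ i, k + 2 ≤ i → i ≤ n → ¬ Win k.bodd S B (x.1 i)) →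
      Val k B (x.1 n) S none := by
    intro n a
    induction n, a using Nat.le_induction with
    | base => exact fun _ => h1
    | succ n a ih =>
      intro b
      have b' : ∀ i, k + 2 ≤ i → i ≤ n → ¬ Win k.bodd S B (x.1 i) := fun i c d => b i c (by omega)
      exact val_none (ih b') (by rwa [x.2.1]) (x.ch n) (step n a b' (ih b'))
        (b _ (by omega) le_rfl)
  by_cases hw : ∃ j, k + 2 ≤ j ∧ Win k.bodd S B (x.1 j)
  · obtain ⟨j, hj⟩ : ∃ j, Nat.find hw = j + 1 := ⟨Nat.find hw - 1, by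
      have := (Nat.find_spec hw).1; omega⟩
    have b1 := Nat.find_spec hw
    have b2 : ∀ i, k + 2 ≤ i → i < j + 1 → ¬ Win k.bodd S B (x.1 i) := fun i c d h =>
      Nat.find_min hw (hj ▸ d) ⟨c, h⟩
    rw [hj] at b1
    have b3 : ∀ i, k + 2 ≤ i → i ≤ j → ¬ Win k.bodd S B (x.1 i) := fun i c d => b2 i c (by omega)
    obtain ⟨m, c1, c2, c3, c4⟩ := core_reach h1.qs.1 x hc (by omega)
      (step j (by omega) b3 (hv j (by omega) b3)) b1.2 b2
    exact lift_some σ _ x S m (by omega) h1 c3 c2 a0 (fun _ => hS) (fun h => absurd rfl h)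
      fun n a b => by rw [hc n (by omega) b, core_hit x (by omega) a c2 c4]
  · push Not at hw
    exact lift_of σ _ x S none h1 (fun n a => hv n (by omega) fun i c _ => hw i c) a0
      (fun _ => hS) (fun h => absurd rfl h) fun n a b => by
        rw [hc n (by omega) b, core_lose x n (fun i c _ => hw i c) (hw n a)]

lemma liftQ (σ : Strat (UT k B hB)) (x : Br T)
    (hx : ∀ n, n.bodd = (!k.bodd) → x.1 (n + 1) = phiQ k B (ex σ) (x.1 n)) :
    ∃ x' : Br (UT k B hB), Fol (!k.bodd) σ x' ∧ ∀ n, (x'.1 n).1.1 = x.1 n := by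
  classical
  have G := ex_gd σ
  obtain ⟨R, hR⟩ : ∃ R, UR k B (ex σ) (x.1 (k + 1)) = R := ⟨_, rfl⟩
  obtain ⟨U, hU⟩ : ∃ U, {u | ∃ S, R u S} = U := ⟨_, rfl⟩
  obtain ⟨S, hS⟩ : ∃ S, {q | ¬ Win (!k.bodd) univ U q} = S := ⟨_, rfl⟩
  have a0 : ∀ n, n ≤ k → n.bodd = (!k.bodd) → (ex σ (x.1 n, univ, none)).1 = x.1 (n + 1) :=
    fun n a b => by rw [hx n b, phiQ, if_pos (by rwa [x.2.1])]
  have hc : ∀ n, k + 1 ≤ n → n.bodd = (!k.bodd) → x.1 (n + 1) =
      core k (!k.bodd) univ U (fun u => Classical.epsilon (R u)) S (ex σ) (x.1 n) :=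
    fun n a b => by
      rw [hx n b, phiQ, if_neg (by rw [x.2.1]; omega), anc_br x (by omega), hR, hU, hS]
  by_cases hw : ∃ j, k + 1 ≤ j ∧ Win (!k.bodd) univ U (x.1 j)
  · obtain ⟨m, c1, c2, -, c4⟩ := core_reach (fun _ _ _ _ _ => trivial) x hc (Nat.find_spec hw).1
      trivial (Nat.find_spec hw).2 fun i c d h => Nat.find_min hw d ⟨by omega, h⟩
    have c5 : R (x.1 m) (Classical.epsilon (R (x.1 m))) :=
      Classical.epsilon_spec (p := R (x.1 m)) (by rw [← hU] at c2; exact c2)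
    generalize hS' : Classical.epsilon (R (x.1 m)) = S' at c5
    rw [← hR] at c5
    obtain ⟨d1, d2⟩ := c5
    obtain ⟨e1, e2, e3, -⟩ := (G.val _ _ _ d1).so _ d2
    rw [G.s _ _ _ d1 (x.2.1 _).ge] at e1
    rw [x.2.1] at e3
    exact lift_some σ _ x S' m e3 d1 e1 e2 a0 (fun h => by simp at h) (fun _ => d2)
      fun n a b => by rw [hc n (by omega) b, core_hit x e3 a c2 c4, hS']
  · push Not at hw
    have hm : ∀ n, k + 1 ≤ n → x.1 n ∈ S := fun n a => hS ▸ hw n a
    have h1 : Val k B (x.1 (k + 1)) S none := val_mid (x.2.1 _) (hS ▸ qs_lose _ U) (hm _ le_rfl)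
    have hc' : ∀ n, k + 1 ≤ n → n.bodd = (!k.bodd) →
        (ex σ (x.1 n, S, none)).1 = x.1 (n + 1) := fun n a b => by
      rw [hc n a b, core_lose x n (fun i c _ => hw i (by omega)) (hw n a)]
    have ho : (ex σ (x.1 (k + 1), S, none)).2.2 = none := by
      by_contra h
      obtain ⟨u, hu⟩ := Option.ne_none_iff_exists'.1 h
      have e1 := ((G.val _ _ _ h1).so _ hu).1
      rw [G.s _ _ _ h1 (x.2.1 _).ge, ← hS] at e1
      exact e1 (win_base (hU ▸ hR ▸ ⟨S, h1, hu⟩))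
    have hv : ∀ n, k + 1 ≤ n → Val k B (x.1 n) S none := by
      intro n a
      induction n, a using Nat.le_induction with
      | base => exact h1
      | succ n a ih =>
        by_cases c : n.bodd = k.bodd
        · have a' : k + 2 ≤ n := by
            by_contra h
            obtain rfl : n = k + 1 := by omega
            simp at c
          refine val_none ih (by rwa [x.2.1]) (x.ch n) (hm _ (by omega)) fun h => ?_
          refine (ih.no rfl n a' (x.2.1 _).ge).2 ?_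
          rw [anc_br x le_rfl]
          exact win_mine (by rwa [x.2.1]) (x.ch n) (hm _ (by omega)) h
        · have v := G.val _ _ _ ih
          rw [hc' n a (Bool.eq_not_of_ne c), G.s _ _ _ ih (by rwa [x.2.1])] at v
          rcases a.eq_or_lt with rfl | a
          · rwa [ho] at v
          · rwa [G.o _ _ _ ih (by rwa [x.2.1])] at v
    exact lift_of σ _ x S none h1 (fun n a => hv n (by omega)) a0 (fun h => by simp at h)
      (fun _ => ⟨hc' _ le_rfl (by simp), ho⟩) fun n a b => hc' n (by omega) b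

noncomputable def UCov (k : ℕ) (B : Set T.P) (hB : ∀ p ∈ B, ∀ q, T.Ch q p → q ∈ B) :
    Cov k (UT k B hB) T where
  π r := r.1.1
  len_π _ := rfl
  par_π _ := rfl
  φ e σ := ⟨if e = k.bodd then phiP k B (ex σ) else phiQ k B (ex σ), fun p => by
    have G := (ex_gd σ).ch
    split_ifs
    · unfold phiP
      split_ifs
      exacts [G _, core_ch G p]
    · unfold phiQ
      split_ifs
      exacts [G _, core_ch G p]⟩
  loc e σ σ' n h p hp := by
    have h1 : ∀ S o, ex σ (p, S, o) = ex σ' (p, S, o) := fun S o => ex_ag h _ hp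
    dsimp only
    split_ifs
    · unfold phiP
      split_ifs with a
      · rw [h1]
      · rw [ex_ag h (T.anc p k, univ, none) (by rw [len_anc (by omega)]; omega), core_ag h1]
    · unfold phiQ
      split_ifs with a
      · rw [h1]
      · have : UR k B (ex σ) (T.anc p (k + 1)) = UR k B (ex σ') (T.anc p (k + 1)) := by
          funext u S
          rw [UR, UR, ex_ag h (T.anc p (k + 1), S, none) (by rw [len_anc (by omega)]; omega)]
        rw [this, core_ag h1]
  lift e σ x h := by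
    by_cases c : e = k.bodd
    · subst c
      exact liftP σ x fun n hn => by simpa using h n hn
    · obtain rfl := Bool.eq_not_of_ne c
      exact liftQ σ x fun n hn => by simpa using h n hn
  inj p q hp h := by
    have hq : T.len q.1.1 ≤ k := h ▸ hp
    exact Subtype.ext (Prod.ext h (Prod.ext ((p.2.s0 hp).trans (q.2.s0 hq).symm)
      ((p.2.o0 (Nat.le_succ_of_le hp)).trans (q.2.o0 (by omega)).symm)))
  surj p hp := ⟨⟨(p, univ, none), val_low (Nat.le_succ_of_le hp)⟩, rfl⟩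
  fix e σ p hp := by
    have : (ex σ (p.1.1, univ, none)).1 = (σ.1 p).1.1 := by
      rw [← p.2.s0 hp.le, ← p.2.o0 (hp.le.trans k.le_succ), ← ex_eq]
    dsimp only
    split_ifs
    · exact (if_pos hp.le).trans this
    · exact (if_pos hp.le).trans this

lemma UCov_dec (k : ℕ) (B : Set T.P) (hB : ∀ p ∈ B, ∀ q, T.Ch q p → q ∈ B) :
    Dec ((UCov k B hB).br ⁻¹' {x | ∃ n, x.1 n ∈ B}) := by
  have key : ∀ x : Br (UT k B hB), (∃ n, (x.1 n).1.1 ∈ B) ↔ (x.1 (k + 2)).1.2.2 ≠ none := by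
    intro x
    have l : ∀ n, T.len (x.1 n).1.1 = n := x.2.1
    have ho : ∀ n, k + 2 ≤ n → (x.1 n).1.2.2 = (x.1 (k + 2)).1.2.2 := by
      intro n a
      induction n, a using Nat.le_induction with
      | base => rfl
      | succ n a ih => rw [(UT_ch (x.ch n)).2.2 (by rwa [l]), ih]
    constructor
    · rintro ⟨n, hn⟩ h
      have up : ∀ m, (x.1 (n + m)).1.1 ∈ B := by
        intro m
        induction m with
        | zero => exact hn
        | succ m ih => exact hB _ ih _ (UT_ch (x.ch _)).1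
      refine ((x.1 (n + (k + 2))).2.no ((ho _ (by omega)).trans h) (n + (k + 2)) (by omega)
        (l _).ge).2 (win_base ?_)
      rw [anc_self (l _).le]; exact up _
    · intro h
      obtain ⟨u, hu⟩ := Option.ne_none_iff_exists'.1 h
      have a := ((x.1 (k + 2)).2.so u hu).2.2.1
      obtain ⟨-, b1, -, b2⟩ := (x.1 (T.len u)).2.so u ((ho _ a).trans hu)
      refine ⟨T.len u, ?_⟩
      have := b2 (T.len u) (l _).ge le_rfl
      rw [anc_self (l _).le, anc_self le_rfl] at this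
      rwa [this]
  intro x
  refine ⟨k + 2, fun y hy => ?_⟩
  exact (key y).trans (by rw [hy]; exact (key x).symm)

end Pool.Agent.Lib.helper24.Det
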