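import Pool.Agent.Lib.helper24.DetD

set_option autoImplicit false
open Set Function

namespace Pool.Agent.Lib.helper24.Det

universe u v

lemma Dec.compl {T : Tr.{u}} {X : Set (Br T)} (h : Dec X) : Dec Xᶜ := fun x => by
  obtain ⟨n, hn⟩ := h x
  exact ⟨n, fun y hy => not_congr (hn y hy)⟩

lemma unr_open {T : Tr.{u}} (k : ℕ) (D : ℕ → Set (Br T)) (h : ∀ i, Dec (D i)) :
    ∃ (T' : Tr.{u}) (c : Cov k T' T), Dec (c.br ⁻¹' ⋃ i, D i) := by
  have hB : ∀ p ∈ {p | ∀ x : Br T, x.1 (T.len p) = p → x ∈ ⋃ i, D i}, ∀ q, T.Ch q p →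
      q ∈ {p | ∀ x : Br T, x.1 (T.len p) = p → x ∈ ⋃ i, D i} := by
    intro p hp q hq x hx
    refine hp x ?_
    rw [← x.2.2, ← hq.1, hx, hq.2]
  refine ⟨_, UCov k _ hB, ?_⟩
  convert UCov_dec k _ hB using 2
  ext x
  refine ⟨fun hx => ?_, fun ⟨n, hn⟩ => hn x (by rw [x.2.1])⟩
  obtain ⟨i, hi⟩ := mem_iUnion.1 hx
  obtain ⟨n, hn⟩ := h i x
  exact ⟨n, fun y hy => mem_iUnion.2 ⟨i, (hn y (by rwa [x.2.1] at hy)).2 hi⟩⟩

def Unr {Y : Type v} (G : Set (Set Y)) (S : Set Y) : Prop :=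
  ∀ (T : Tr.{u}) (f : Br T → Y), (∀ A ∈ G, Dec (f ⁻¹' A)) → ∀ k,
    ∃ (T' : Tr.{u}) (c : Cov k T' T), Dec (c.br ⁻¹' (f ⁻¹' S))

lemma unr_union {Y : Type v} {G : Set (Set Y)} (S : ℕ → Set Y) (hS : ∀ i, Unr.{u} G (S i)) :
    Unr.{u} G (⋃ i, S i) := by
  intro T f hf k
  choose F c hc using fun (i : ℕ) (a : Σ T : Tr.{u}, {f : Br T → Y // ∀ A ∈ G, Dec (f ⁻¹' A)}) =>
    hS i a.1 a.2.1 a.2.2 (k + i)
  let s : ℕ → Σ T : Tr.{u}, {f : Br T → Y // ∀ A ∈ G, Dec (f ⁻¹' A)} := fun i =>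
    Nat.rec ⟨T, f, hf⟩ (fun i a => ⟨F i a, a.2.1 ∘ (c i a).br,
      fun A hA => (a.2.2 A hA).pre (c i a)⟩) i
  let R : ℕ → Tr.{u} := fun i => (s i).1
  let d : ∀ i, Cov (k + i) (R (i + 1)) (R i) := fun i => c i (s i)
  have e : ∀ i (x : Br (LT d)), (s i).2.1 ((LCov d i).br x) = f ((LCov d 0).br x) := by
    intro i x
    induction i with
    | zero => rfl
    | succ i ih => rw [← ih, ← LCov_br d i x]; rfl
  obtain ⟨T', c', h⟩ := unr_open k (fun i => (LCov d 0).br ⁻¹' (f ⁻¹' S i)) fun i => by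
    convert (hc i (s i)).pre (LCov d (i + 1)) using 1
    ext x
    exact (iff_of_eq (congrArg (· ∈ S i) (e (i + 1) x))).symm
  refine ⟨T', Cov.comp (k := k) (LCov d 0) c', ?_⟩
  convert h using 1
  ext x
  simp only [mem_preimage, mem_iUnion]
  rfl

@[reducible] def unrSp {Y : Type v} (G : Set (Set Y)) : MeasurableSpace Y where
  MeasurableSet' := Unr.{u} G
  measurableSet_empty T _ _ k := ⟨T, Cov.refl k T, fun _ => ⟨0, fun _ _ => Iff.rfl⟩⟩
  measurableSet_compl S h T f hf k := by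
    obtain ⟨T', c, h⟩ := h T f hf k
    exact ⟨T', c, h.compl⟩
  measurableSet_iUnion := unr_union

lemma unr_gen {Y : Type v} {G : Set (Set Y)} {A : Set Y} (h : A ∈ G) : Unr.{u} G A :=
  fun T _ hf k => ⟨T, Cov.refl k T, hf A h⟩

lemma det_dec {T : Tr.{u}} (hr : ∀ p q, T.len p = 0 → T.len q = 0 → p = q) {D : Set (Br T)}
    (h : Dec D) : ∃ (e : Bool) (σ : Strat T), ∀ x, Fol e σ x → (x ∈ D ↔ e = false) := by
  obtain ⟨B, hB⟩ : ∃ B, B = {p | ∀ x : Br T, x.1 (T.len p) = p → x ∈ D} := ⟨_, rfl⟩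
  by_cases hw : ∃ p, T.len p = 0 ∧ Win false univ B p
  · obtain ⟨p, h1, h2⟩ := hw
    refine ⟨false, ws false univ B, fun x hx => iff_of_true ?_ rfl⟩
    obtain ⟨n, -, a, -⟩ := reach (fun _ _ _ _ _ => trivial) x 0 trivial
      (hr _ _ h1 (x.2.1 0) ▸ h2) fun n _ _ _ hn => hx n hn
    rw [hB] at a
    exact a x (by rw [x.2.1])
  · push Not at hw
    have Q := qs_lose (T := T) true B
    have : ∀ p, ∃ q, T.Ch q p ∧ (¬ Win false univ B p → ¬ Win false univ B q) := by
      intro p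
      by_cases hp : Win false univ B p
      · obtain ⟨q, hq⟩ := T.pruned p
        exact ⟨q, hq, fun h => absurd hp h⟩
      · obtain ⟨q, a, -, b⟩ := lose_child qs_univ (mem_univ p) hp
        exact ⟨q, a, fun _ => b⟩
    choose s s1 s2 using this
    refine ⟨true, ⟨s, s1⟩, fun x hx => iff_of_false (fun hD => ?_) (by simp)⟩
    have : ∀ n, ¬ Win false univ B (x.1 n) := by
      intro n
      induction n with
      | zero => exact hw _ (x.2.1 0)
      | succ n ih =>
        by_cases c : n.bodd = true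
        · rw [hx n c]; exact s2 _ ih
        · exact Q.1 _ ih (by rwa [x.2.1]) _ (x.ch n)
    obtain ⟨n, hn⟩ := h x
    exact this n (win_base (hB ▸ fun y hy => (hn y (by rwa [x.2.1] at hy)).2 hD))

lemma det_unr {T : Tr.{u}} (hr : ∀ p q, T.len p = 0 → T.len q = 0 → p = q) {Y : Type v}
    {G : Set (Set Y)} {S : Set Y} (hS : Unr.{u} G S) (f : Br T → Y)
    (hf : ∀ A ∈ G, Dec (f ⁻¹' A)) :
    ∃ (e : Bool) (σ : Strat T), ∀ x, Fol e σ x → (f x ∈ S ↔ e = false) := by
  obtain ⟨T', c, h⟩ := hS T f hf 0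
  obtain ⟨e, σ, h⟩ := det_dec (fun p q a b => c.inj p q a.le
    (hr _ _ (by rwa [c.len_π]) (by rwa [c.len_π]))) h
  refine ⟨e, c.φ e σ, fun x hx => ?_⟩
  obtain ⟨y, a, b⟩ := c.lift e σ x hx
  obtain rfl : c.br y = x := Subtype.ext (funext b)
  exact h y a

section Gen

variable {ι V : Type u} [Inhabited V] (t : ι → ℕ)

def cut (n : ℕ) (z : ι → V) : ι → V := fun i => if t i < n then z i else default

def GT (V : Type u) [Inhabited V] : Tr.{u} where
  P := {a : ℕ × (ι → V) // cut t a.1 a.2 = a.2}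
  len a := a.1.1
  par a := ⟨(a.1.1 - 1, cut t (a.1.1 - 1) a.1.2), funext fun i => by
    simp only [cut]; split_ifs <;> rfl⟩
  len_par _ := rfl
  pruned a := ⟨⟨(a.1.1 + 1, a.1.2), funext fun i => by
      rw [← a.2]; simp only [cut]; split_ifs <;> first | rfl | omega⟩, rfl,
    Subtype.ext (Prod.ext rfl a.2)⟩

def gpos (n : ℕ) (z : ι → V) : (GT t V).P :=
  ⟨(n, cut t n z), funext fun i => by simp only [cut]; split_ifs <;> rfl⟩

/-- Borel determinacy: coordinate `i` is played at time `t i`, by the player `(t i).bodd` -/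
theorem det [MeasurableSpace V] (S : Set (ι → V)) (hS : MeasurableSet S) :
    ∃ (e : Bool) (s : (ι → V) → ι → V),
      (∀ z z' i, (∀ j, t j < t i → z j = z' j) → s z i = s z' i) ∧
      ∀ z, (∀ i, (t i).bodd = e → z i = s z i) → (z ∈ S ↔ e = false) := by
  have hU : Unr.{u} {A | ∃ (i : ι) (C : Set V), A = {z : ι → V | z i ∈ C}} S := by
    refine (?_ : MeasurableSpace.pi ≤ unrSp.{u} _) S hS
    exact iSup_le fun i A ⟨C, _, h⟩ => unr_gen ⟨i, C, h.symm⟩
  have mono : ∀ (x : Br (GT t V)) (i : ι) (n : ℕ), t i + 1 ≤ n →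
      (x.1 n).1.2 i = (x.1 (t i + 1)).1.2 i := by
    intro x i n h
    induction n, h using Nat.le_induction with
    | base => rfl
    | succ n h ih =>
      rw [← ih, ← x.2.2 n]
      have : (x.1 (n + 1)).1.1 = n + 1 := x.2.1 _
      exact (if_pos (by omega)).symm
  obtain ⟨e, σ, h⟩ := det_unr (T := GT t V) (fun p q a b => by
      replace a : p.1.1 = 0 := a
      replace b : q.1.1 = 0 := b
      refine Subtype.ext (Prod.ext (a.trans b.symm) ?_)
      rw [← p.2, ← q.2, a, b]; funext i; simp [cut])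
    hU (fun x i => (x.1 (t i + 1)).1.2 i) (by
      rintro _ ⟨i, C, rfl⟩ x
      exact ⟨t i + 1, fun y hy => by simp only [mem_preimage, mem_ofPred_eq, hy]⟩)
  refine ⟨e, fun z i => (σ.1 (gpos t (t i) z)).1.2 i, fun z z' i hz => ?_, fun z hz => ?_⟩
  · have : gpos t (t i) z = gpos t (t i) z' := by
      refine Subtype.ext (Prod.ext rfl (funext fun j => ?_))
      simp only [gpos, cut]
      split_ifs with a
      exacts [hz j a, rfl]
    simp only [this]
  · have := h ⟨fun n => gpos t n z, fun _ => rfl, fun n => Subtype.ext (Prod.ext rfl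
      (funext fun j => by simp only [gpos, GT, cut]; split_ifs <;> first | rfl | omega))⟩
      fun n hn => ?_
    · simpa [gpos, cut] using this
    obtain ⟨a, b⟩ := σ.2 (gpos t n z)
    have hz' : ∀ j, t j = n → z j = (σ.1 (gpos t n z)).1.2 j := fun j c => by
      subst c; exact hz j hn
    dsimp only
    generalize σ.1 (gpos t n z) = q at a b hz'
    obtain ⟨⟨m, w⟩, hq⟩ := q
    obtain rfl : m = n + 1 := a
    refine Subtype.ext (Prod.ext rfl (funext fun j => ?_))
    have b1 : (if t j < n then w j else default) = if t j < n then z j else default :=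
      congrArg (fun p : (GT t V).P => p.1.2 j) b
    have b2 : (if t j < n + 1 then w j else default) = w j := congrFun hq j
    change (if t j < n + 1 then z j else default) = w j
    rcases lt_trichotomy (t j) n with c | c | c
    · rw [if_pos c, if_pos c] at b1
      rw [if_pos (by omega), ← b1]
    · rw [if_pos (by omega), hz' j c]
    · rw [if_neg (by omega)] at b2 ⊢
      exact b2

/-- a strictly causal map has a fixed point -/
lemma fixpt (Φ : (ι → V) → ι → V)
    (h : ∀ z z' i, (∀ j, t j < t i → z j = z' j) → Φ z i = Φ z' i) : ∃ z, Φ z = z := by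
  have key : ∀ n m i, t i < n → t i < m → Φ^[n] default i = Φ^[m] default i := by
    intro n
    induction n with
    | zero => intro m i a; omega
    | succ n ih =>
      intro m i a b
      obtain ⟨m, rfl⟩ : ∃ m', m = m' + 1 := ⟨m - 1, by omega⟩
      rw [iterate_succ_apply', iterate_succ_apply']
      exact h _ _ i fun j c => ih m j (by omega) (by omega)
  refine ⟨fun i => Φ^[t i + 1] default i, funext fun i => ?_⟩
  rw [iterate_succ_apply']
  exact h _ _ i fun j c => key _ _ j (by omega) c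

end Gen

end Pool.Agent.Lib.helper24.Det
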