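import Pool.Agent.Lib.helper24.DetE

set_option autoImplicit false
open Set Function

namespace Pool.Agent.Lib.helper24.Det

variable {P V : Type} [DecidableEq P]

/-- labelled trees seen from a vertex: `z (p, w)` is the label of the edge reached by leaving
through the port `p` and then through the ports `w` -/
abbrev Z (P V : Type) : Type := P × List P → V

def mvf (p q : P) (c : V) (z : Z P V) : Z P V := fun i =>
  if i.1 = q then (match i.2 with
    | [] => c
    | r :: w => if r = p then z (p, q :: w) else z (r, w))
  else z (p, i.1 :: i.2)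

def mv (σ : P × V → P × V) (h : Z P V × P) : Z P V × P :=
  (mvf h.2 (σ (h.2, h.1 (h.2, []))).1 (σ (h.2, h.1 (h.2, []))).2 h.1, (σ (h.2, h.1 (h.2, []))).1)

lemma mvf_mvf (p q : P) (c : V) (z : Z P V) : mvf q p (z (p, [])) (mvf p q c z) = z := by
  funext ⟨r, w⟩
  by_cases h : r = p
  · subst h
    cases w with
    | nil => simp [mvf]
    | cons a w => by_cases h : a = q <;> simp [mvf, h]
  · simp [mvf, h]

lemma mv_inv {σ : P × V → P × V} (hσ : Involutive σ) : Involutive (mv σ) := by
  rintro ⟨z, p⟩
  have : (mv σ (z, p)).1 ((mv σ (z, p)).2, []) = (σ (p, z (p, []))).2 := by simp [mv, mvf]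
  rw [mv, this]
  simp only [mv, Prod.mk.eta, hσ _, mvf_mvf]

def Far (p : P) (S : Set (Z P V)) : Prop :=
  ∃ F : Z P V → List P → V,
    (∀ z z' w, (∀ j : P × List P, j.2.length < w.length → z j = z' j) → F z w = F z' w) ∧
    ∀ z, (∀ w, z (p, w) = F z w) → z ∈ S

def Near (p : P) (S : Set (Z P V)) : Prop :=
  ∃ G : Z P V → Z P V,
    (∀ z z' i, (∀ j : P × List P, (j.2.length < i.2.length ∨ j.1 = p ∧ j.2.length = i.2.length) →
      z j = z' j) → G z i = G z' i) ∧
    ∀ z, (∀ i, i.1 ≠ p → z i = G z i) → z ∈ S

omit [DecidableEq P] in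
lemma Far.mono {p : P} {S S' : Set (Z P V)} (h : Far p S) (h' : S ⊆ S') : Far p S' := by
  obtain ⟨F, a, b⟩ := h
  exact ⟨F, a, fun z hz => h' (b z hz)⟩

lemma far_or_near [Inhabited V] [MeasurableSpace V] (p : P) {S : Set (Z P V)}
    (hS : MeasurableSet S) : Far p S ∨ Near p Sᶜ := by
  obtain ⟨e, s, h1, h2⟩ := det (fun i : P × List P => 2 * i.2.length + if i.1 = p then 0 else 1) S hS
  cases e with
  | false =>
    refine Or.inl ⟨fun z w => s z (p, w), fun z z' w h => h1 _ _ _ fun j hj => h j ?_,
      fun z hz => (h2 z fun ⟨r, w⟩ hi => ?_).2 rfl⟩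
    · simp only [if_true] at hj
      split_ifs at hj <;> omega
    · by_cases c : r = p
      · subst c; exact hz w
      · simp [c] at hi
  | true =>
    refine Or.inr ⟨s, fun z z' i h => h1 _ _ _ fun j hj => h j ?_,
      fun z hz hS => ?_⟩
    · split_ifs at hj with a b <;> first | omega | (simp only [a, true_and]; omega)
    · refine Bool.noConfusion ((h2 z fun i hi => hz i fun c => ?_).1 hS)
      simp [c] at hi

omit [DecidableEq P] in
lemma vertex [Inhabited V] {S : P → Set (Z P V)} (h : ∀ p, Far p (S p)) : ∃ z, ∀ p, z ∈ S p := by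
  choose F a b using h
  obtain ⟨z, hz⟩ := fixpt (fun i : P × List P => i.2.length) (fun z i => F i.1 z i.2)
    fun z z' i h => a _ _ _ _ h
  exact ⟨z, fun p => b p z fun w => (congrFun hz (p, w)).symm⟩

lemma edge (σ : P × V → P × V) {p q : P} {c : V} (hc : (σ (p, c)).1 = q) {S : Set (Z P V)}
    (h : Near q S) : Far p {z | (mv σ (z, p)).2 = q ∧ (mv σ (z, p)).1 ∈ S} := by
  obtain ⟨G, a, b⟩ := h
  refine ⟨fun z w => match w with
    | [] => c
    | r :: w => if r = q then c else G (mvf p q (σ (p, c)).2 z) (r, w), fun z z' w h => ?_,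
    fun z hz => ?_⟩
  · cases w with
    | nil => rfl
    | cons r w =>
      dsimp only
      split_ifs with h1
      · rfl
      refine a _ _ _ fun ⟨s, v⟩ hj => ?_
      simp only [List.length_cons] at h hj
      unfold mvf
      dsimp only
      split_ifs with h2
      · cases v with
        | nil => rfl
        | cons u v =>
          simp only [List.length_cons] at hj
          dsimp only
          split_ifs
          · exact h _ (by simp only [List.length_cons]; omega)
          · exact h _ (by dsimp only; omega)
      · exact h _ (by simp only [List.length_cons, h2, false_and, or_false] at hj ⊢; omega)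
  · have h0 : z (p, []) = c := hz []
    simp only [mem_ofPred_eq, mv, h0, hc, true_and]
    refine b _ fun ⟨r, w⟩ hi => ?_
    have := hz (r :: w)
    dsimp only at this hi
    rw [if_neg hi] at this
    rw [← this, mvf, if_neg hi]

lemma mvf_meas [MeasurableSpace V] (p q : P) (c : V) : Measurable (mvf p q c) := by
  refine measurable_pi_lambda _ fun ⟨r, w⟩ => ?_
  unfold mvf
  dsimp only
  split_ifs
  · cases w with
    | nil => exact measurable_const
    | cons a w =>
      dsimp only
      split_ifs <;> exact measurable_pi_apply _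
  · exact measurable_pi_apply _

lemma mv_meas [MeasurableSpace V] [Countable V] [DiscreteMeasurableSpace V] [MeasurableSpace P]
    (σ : P × V → P × V) (p : P) : Measurable fun z : Z P V => mv σ (z, p) := by
  have : Measurable fun a : Z P V × V => (mvf p (σ (p, a.2)).1 (σ (p, a.2)).2 a.1, (σ (p, a.2)).1) :=
    measurable_from_prod_countable_left fun c =>
      (mvf_meas p (σ (p, c)).1 (σ (p, c)).2).prodMk (measurable_const (a := (σ (p, c)).1))
  exact this.comp (measurable_id.prodMk (measurable_pi_apply (p, [])))

end Pool.Agent.Lib.helper24.Det
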