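import Mathlib

set_option autoImplicit false
open Set Function

namespace Pool.Agent.Lib.helper24

/-- Borel maximal independent sets for graphs generated by countably many measurable maps -/
theorem max_indep {X ι κ : Type*} [MeasurableSpace X] [Countable ι] [Countable κ] (Y : Set X)
    (f : κ → X → X) (hf : ∀ k, Measurable (f k)) (hs : ∀ k, ∃ l, ∀ x, f l (f k x) = x)
    (U : ι → Set X) (hU : ∀ i, MeasurableSet (U i))
    (h : ∀ x ∈ Y, ∃ i, x ∈ U i ∧ ∀ k, f k x ∉ U i) :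
    ∃ M : Set X, MeasurableSet M ∧ (∀ x ∈ M, ∀ k, f k x ∉ M) ∧
      ∀ x ∈ Y, x ∈ M ∨ ∃ k, f k x ∈ M := by
  classical
  cases isEmpty_or_nonempty ι with
  | inl _ => exact ⟨∅, .empty, by simp, fun x hx => (h x hx).elim fun i => isEmptyElim i⟩
  | inr _ =>
  obtain ⟨e, he⟩ := exists_surjective_nat ι
  let M : ℕ → Set X := fun n => Nat.rec ∅
    (fun n S => S ∪ (U (e n) ∩ ⋂ k, f k ⁻¹' (U (e n) ∪ S)ᶜ)) n
  have hM : ∀ n x, x ∈ M (n + 1) ↔
      x ∈ M n ∨ (x ∈ U (e n) ∧ ∀ k, f k x ∉ U (e n) ∧ f k x ∉ M n) := by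
    intro n x
    change x ∈ M n ∪ (U (e n) ∩ ⋂ k, f k ⁻¹' (U (e n) ∪ M n)ᶜ) ↔ _
    simp
  have mono : Monotone M := monotone_nat_of_le_succ fun n x hx => (hM n x).2 (Or.inl hx)
  have ind : ∀ n, ∀ x ∈ M n, ∀ k, f k x ∉ M n := by
    intro n
    induction n with
    | zero => exact fun x hx => hx.elim
    | succ n ih =>
      intro x hx k hk
      obtain ⟨l, hl⟩ := hs k
      rcases (hM n x).1 hx with a | a <;> rcases (hM n _).1 hk with b | b
      exacts [ih x a k b, (b.2 l).2 (by rwa [hl]), (a.2 k).2 b, (a.2 k).1 b.1]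
  refine ⟨⋃ n, M n, MeasurableSet.iUnion fun n => ?_, fun x hx k hk => ?_, fun x hx => ?_⟩
  · induction n with
    | zero => exact .empty
    | succ n ih =>
      exact ih.union ((hU _).inter (MeasurableSet.iInter fun k => hf k ((hU _).union ih).compl))
  · obtain ⟨n, hn⟩ := mem_iUnion.1 hx
    obtain ⟨m, hm⟩ := mem_iUnion.1 hk
    exact ind (max n m) x (mono (le_max_left _ _) hn) k (mono (le_max_right _ _) hm)
  · obtain ⟨i, h1, h2⟩ := h x hx
    obtain ⟨n, rfl⟩ := he i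
    rcases em (∃ k, f k x ∈ M n) with c | c
    · obtain ⟨k, hk⟩ := c
      exact Or.inr ⟨k, mem_iUnion.2 ⟨n, hk⟩⟩
    · push Not at c
      exact Or.inl (mem_iUnion.2 ⟨n + 1, (hM n x).2 (Or.inr ⟨h1, fun k => ⟨h2 k, c k⟩⟩)⟩)

end Pool.Agent.Lib.helper24
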